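import Pool.Agent.V7H30.DW.Trace
import Pool.Agent.V7H30.TP.PlaneGap

/-!
# If all pairs are good then the order is a prime power
-/

set_option autoImplicit false

namespace Pool.Agent.V7H30.DW

open Finset Pool.Agent.N606.ST Pool.Agent.V7H30.TP

noncomputable section

variable {P B : Type} [Fintype P] [Fintype B] {I : P → B → Prop} {n : ℕ}

variable (h : Des I n) (hall : ∀ x y, x ≠ y → Good I n x y)

include h hall

/-- the projection from `p` -/
theorem exists_proj {e f : B} {p x : P} (hpe : ¬ I p e) (hxe : I x e) (hxf : ¬ I x f) :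
    ∃ w, w ∈ line I p x ∧ I w f ∧ ¬ I w e := by
  have hpx : p ≠ x := by
    rintro rfl
    exact hpe hxe
  obtain ⟨w, hw, hwf⟩ := exists_meet h (hall p x hpx) f
  refine ⟨w, hw, hwf, fun hwe => ?_⟩
  have hwx : w ≠ x := by
    rintro rfl
    exact hxf hwf
  exact hpe (sub_of_two h hpx hw (right_mem p x) hwx hwe hxe).1

theorem tr_mem {e g : B} {p : P} (hpe : ¬ I p e) (heg : e ≠ g) : tr I e g ∈ ptr I p e := by
  classical
  obtain ⟨x, hx⟩ : (pts I e ∩ pts I g).Nonempty := by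
    rw [← card_pos, h.bb e g heg]
    omega
  by_cases hn : n = 0
  · -- one point
    rw [mem_inter, mem_pts, mem_pts] at hx
    have hpx : p ≠ x := by
      rintro rfl
      exact hpe hx.1
    obtain ⟨b, h1, h2, _⟩ := exists_blk h (hall p x hpx) x
    have heb : e ≠ b := ne_of_not hpe h1
    have h3 : tr I e g = tr I e b := by
      have h4 := card_tr h heg
      have h5 := card_tr h heb
      rw [hn] at h4 h5
      obtain ⟨a, ha⟩ := card_eq_one.1 h4
      obtain ⟨c, hc⟩ := card_eq_one.1 h5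
      have h6 : (⟨x, mem_pts.2 hx.1⟩ : Pt I e) ∈ tr I e g := mem_tr.2 hx.2
      have h7 : (⟨x, mem_pts.2 hx.1⟩ : Pt I e) ∈ tr I e b := mem_tr.2 h2
      rw [ha, mem_singleton] at h6
      rw [hc, mem_singleton] at h7
      rw [ha, hc, ← h6, ← h7]
    rw [h3, ptr, mem_image]
    exact ⟨b, mem_thr.2 h1, rfl⟩
  · obtain ⟨y, hy, hyx⟩ := exists_mem_ne (by rw [h.bb e g heg]; omega :
      1 < (pts I e ∩ pts I g).card) x
    rw [mem_inter, mem_pts, mem_pts] at hx hy
    obtain ⟨b, h1, h2, h3⟩ := exists_blk h (hall x y hyx.symm) p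
    have heb : e ≠ b := ne_of_not hpe h3
    have h4 := trace_eq h (hall x y hyx.symm) heg hx.1 hy.1 hx.2 hy.2
    have h5 := trace_eq h (hall x y hyx.symm) heb hx.1 hy.1 h1 h2
    rw [ptr, mem_image]
    refine ⟨b, mem_thr.2 h3, ?_⟩
    ext z
    have h6 : (z.1 ∈ pts I e ∩ pts I b) ↔ z.1 ∈ pts I e ∩ pts I g := by rw [h4, h5]
    rw [mem_inter, mem_inter, mem_pts, mem_pts, mem_pts] at h6
    rw [mem_tr, mem_tr]
    have h7 := mem_pts.1 z.2
    tauto

open Classical in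
theorem col_of {e g : B} {p : P} (hpe : ¬ I p e) (heg : e ≠ g) {x y z : Pt I e} (hx : I x.1 g)
    (hy : I y.1 g) (hz : I z.1 g) : Col (ptr I p e) x y z :=
  ⟨tr I e g, tr_mem h hall hpe heg, mem_tr.2 hx, mem_tr.2 hy, mem_tr.2 hz⟩

omit h hall in
open Classical in
theorem of_col {e : B} {p : P} (hpe : ¬ I p e) {x y z : Pt I e} (hc : Col (ptr I p e) x y z) :
    ∃ g, e ≠ g ∧ I x.1 g ∧ I y.1 g ∧ I z.1 g := by
  obtain ⟨b, hb, h1, h2, h3⟩ := hc
  rw [ptr, mem_image] at hb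
  obtain ⟨g, hg, rfl⟩ := hb
  exact ⟨g, ne_of_not hpe (mem_thr.1 hg), mem_tr.1 h1, mem_tr.1 h2, mem_tr.1 h3⟩

/-- a point of the line through `x` and `y` -/
theorem mem_of_blocks {e g : B} (heg : e ≠ g) {x y z : P} (hxy : x ≠ y) (hx : I x e) (hy : I y e)
    (hz : I z e) (hx' : I x g) (hy' : I y g) (hz' : I z g) : z ∈ line I x y := by
  classical
  rw [← trace_eq h (hall x y hxy) heg hx hy hx' hy', mem_inter, mem_pts, mem_pts]
  exact ⟨hz, hz'⟩

open Classical in
/-- **Translations from projections.** -/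
theorem transOn (hn : 2 ≤ n) {e f : B} {p : P} (hpe : ¬ I p e) (hpf : ¬ I p f)
    (hB : Plane n (ptr I p e)) (hl : tr I e f ∈ ptr I p e)
    (Z : {Z // Z ∈ tr I e f}) : TransOn (cls hB hl hn) Z := by
  intro x x' hxx
  rw [← col_iff hB hl hn] at hxx
  obtain ⟨g, heg, hZg, hxg, hxg'⟩ := of_col hpe hxx
  set z := Z.1.1 with hz
  set a := x.1.1 with ha
  set a' := x'.1.1 with ha'
  have hze : I z e := mem_pts.1 Z.1.2
  have hzf : I z f := mem_tr.1 Z.2
  have hae : I a e := mem_pts.1 x.1.2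
  have haf : ¬ I a f := fun hc => x.2 (mem_tr.2 hc)
  have hae' : I a' e := mem_pts.1 x'.1.2
  have haf' : ¬ I a' f := fun hc => x'.2 (mem_tr.2 hc)
  have hza : z ≠ a := by
    intro hc
    exact haf (hc ▸ hzf)
  have hza' : z ≠ a' := by
    intro hc
    exact haf' (hc ▸ hzf)
  have hpz : p ≠ z := by
    intro hc
    exact hpe (hc ▸ hze)
  obtain ⟨w, hw1, hwf, hwe⟩ := exists_proj h hall hpe hae haf
  -- the block of `z`, `a`, `p`
  obtain ⟨c, hzc, hac, hpc⟩ := exists_blk h (hall z a hza) p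
  have hac' : I a' c := by
    have h1 : a' ∈ line I z a := mem_of_blocks h hall heg hza hze hae hae' hZg hxg hxg'
    exact mem_line.1 h1 c hzc hac
  have hwc : I w c := mem_line.1 hw1 c hpc hac
  have haw' : a' ≠ w := by
    intro hc
    exact hwe (hc ▸ hae')
  -- the second centre
  obtain ⟨q, hq1, hq2⟩ : ∃ q, q ∈ line I p z ∧ q ∈ line I a' w := by
    have h1 : 1 < (thr I a' ∩ thr I w).card := by
      rw [h.pp a' w haw']
      omega
    obtain ⟨d, hd, hdc⟩ := exists_mem_ne h1 c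
    rw [mem_inter, mem_thr, mem_thr] at hd
    obtain ⟨q, hq, hqd⟩ := exists_meet h (hall p z hpz) d
    refine ⟨q, hq, mem_of_blocks h hall hdc haw' hd.1 hd.2 hqd hac' hwc ?_⟩
    exact mem_line.1 hq c hpc hzc
  have hqe : ¬ I q e := by
    intro hqe
    have h1 : q = z := by
      by_contra hne
      exact hpe (sub_of_two h hpz hq1 (right_mem p z) hne hqe hze).1
    rw [h1] at hq2
    exact hwe (sub_of_two h haw' hq2 (left_mem a' w) hza' hze hae').2
  have hqf : ¬ I q f := by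
    intro hqf
    have h1 : q = z := by
      by_contra hne
      exact hpf (sub_of_two h hpz hq1 (right_mem p z) hne hqf hzf).1
    rw [h1] at hq2
    have hzw : z ≠ w := by
      intro hc
      exact hwe (hc ▸ hze)
    exact haf' (sub_of_two h haw' hq2 (right_mem a' w) hzw hzf hwf).1
  -- the projections
  have hσ : ∀ y : {x : Pt I e // x ∉ tr I e f}, ∃ w, w ∈ line I p y.1.1 ∧ I w f ∧ ¬ I w e :=
    fun y => exists_proj h hall hpe (mem_pts.1 y.1.2) fun hc => y.2 (mem_tr.2 hc)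
  choose σ hσ1 hσ2 hσ3 using hσ
  have hτ : ∀ y : {x : Pt I e // x ∉ tr I e f}, ∃ y' : {x : Pt I e // x ∉ tr I e f},
      y'.1.1 ∈ line I q (σ y) := by
    intro y
    obtain ⟨w, h1, h2, h3⟩ := exists_proj h hall (f := e) hqf (hσ2 y) (hσ3 y)
    exact ⟨⟨⟨w, mem_pts.2 h2⟩, fun hc => h3 (mem_tr.1 hc)⟩, h1⟩
  choose τ hτ using hτ
  refine ⟨τ, ?_, ?_, ?_⟩
  · -- the image of `x`
    have hσx : σ x = w := by
      by_contra hne
      have hpa : p ≠ a := by
        intro hc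
        exact hpe (hc ▸ hae)
      exact hpf (sub_of_two h hpa (hσ1 x) hw1 hne (hσ2 x) hwf).1
    have h1 := hτ x
    rw [hσx] at h1
    have hqw : q ≠ w := by
      intro hc
      exact hqf (hc ▸ hwf)
    have h2 : a' ∈ line I q w := by
      rw [line_eq h haw' hq2 (right_mem a' w) hqw]
      exact left_mem a' w
    apply Subtype.ext
    apply Subtype.ext
    by_contra hne
    exact hqe (sub_of_two h hqw h1 h2 hne (mem_pts.1 (τ x).1.2) hae').1
  · intro y
    rw [← col_iff hB hl hn]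
    obtain ⟨b, hpb, hzb, hyb⟩ := exists_blk h (hall p z hpz) y.1.1
    have hqb : I q b := mem_line.1 hq1 b hpb hzb
    have hσb : I (σ y) b := mem_line.1 (hσ1 y) b hpb hyb
    have hτb : I (τ y).1.1 b := mem_line.1 (hτ y) b hqb hσb
    exact col_of h hall hpe (ne_of_not hpe hpb) hzb hτb hyb
  · intro Q y y' hyy
    rw [← col_iff hB hl hn] at hyy ⊢
    obtain ⟨b₀, heb₀, hQb₀, hyb₀, hyb₀'⟩ := of_col hpe hyy
    have hQe : I Q.1.1 e := mem_pts.1 Q.1.2
    have hQf : I Q.1.1 f := mem_tr.1 Q.2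
    have hye : I y.1.1 e := mem_pts.1 y.1.2
    have hye' : I y'.1.1 e := mem_pts.1 y'.1.2
    have hQy : Q.1.1 ≠ y.1.1 := by
      intro hc
      exact y.2 (mem_tr.2 (hc ▸ hQf))
    have h1 : y'.1.1 ∈ line I Q.1.1 y.1.1 :=
      mem_of_blocks h hall heb₀ hQy hQe hye hye' hQb₀ hyb₀ hyb₀'
    obtain ⟨g₁, hQg, hyg, hpg⟩ := exists_blk h (hall _ _ hQy) p
    have hyg' : I y'.1.1 g₁ := mem_line.1 h1 g₁ hQg hyg
    have hσg : I (σ y) g₁ := mem_line.1 (hσ1 y) g₁ hpg hyg
    have hσg' : I (σ y') g₁ := mem_line.1 (hσ1 y') g₁ hpg hyg'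
    have hQσ : Q.1.1 ≠ σ y := by
      intro hc
      exact hσ3 y (hc ▸ hQe)
    have h2 : σ y' ∈ line I Q.1.1 (σ y) := by
      refine mem_of_blocks h hall (e := g₁) (g := f) ?_ hQσ hQg hσg hσg' hQf (hσ2 y) (hσ2 y')
      rintro rfl
      exact hpf hpg
    obtain ⟨g₂, hQg₂, hσg₂, hqg₂⟩ := exists_blk h (hall _ _ hQσ) q
    have hσg₂' : I (σ y') g₂ := mem_line.1 h2 g₂ hQg₂ hσg₂
    exact col_of h hall hpe (ne_of_not hqe hqg₂) hQg₂ (mem_line.1 (hτ y) g₂ hqg₂ hσg₂)
      (mem_line.1 (hτ y') g₂ hqg₂ hσg₂')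

/-- **If all pairs are good then the order is a prime power.** -/
theorem isPrimePow_of_all (hn : 2 ≤ n) : IsPrimePow n := by
  classical
  by_contra hnp
  have hcB : 1 < Fintype.card B := by
    rw [h.cardB]
    nlinarith
  obtain ⟨e, f, hef⟩ := Fintype.exists_pair_of_one_lt_card hcB
  obtain ⟨p, hp⟩ : ∃ p, p ∉ pts I e ∪ pts I f := by
    by_contra hcon
    push Not at hcon
    have h1 : (univ : Finset P) ⊆ pts I e ∪ pts I f := fun p _ => hcon p
    have h2 := card_le_card h1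
    have h3 := card_union_add_card_inter (pts I e) (pts I f)
    rw [card_univ, h.cardP] at h2
    rw [h.bl, h.bl, h.bb e f hef] at h3
    have h4 : 2 * n ^ 2 ≤ n ^ 3 := by nlinarith [sq_nonneg n]
    have h5 : 0 < n ^ 2 := by positivity
    nlinarith
  rw [mem_union, not_or, mem_pts, mem_pts] at hp
  have hpe := hp.1
  have hpf := hp.2
  have hr : Regular I p e := regular_of_perf h hpe fun y hy => hall p y hy
  have hB := plane_ptr h hpe hr
  have hl : tr I e f ∈ ptr I p e := tr_mem h hall hpe hef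
  have h1 := plane_tail hB hl hn hnp 0
  have h2 : {Z | Z ∈ tr I e f ∧ ∃ a b, Line (ptr I p e) (tr I e f) Z a ∧
      Line (ptr I p e) (tr I e f) Z b ∧ a ≠ b ∧
        (fail (ptr I p e) (tr I e f) Z a b).ncard ≤ 0} = (tr I e f : Set (Pt I e)) := by
    ext Z
    simp only [Set.mem_ofPred_eq, mem_coe]
    refine ⟨fun hZ => hZ.1, fun hZ => ⟨hZ, ?_⟩⟩
    have h3 := card_lines hB hl hn hZ
    obtain ⟨a, ha, b, hb, hab⟩ := one_lt_card.1 (by rw [h3]; omega :
      1 < (lines (ptr I p e) (tr I e f) Z).card)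
    rw [mem_lines] at ha hb
    refine ⟨a, b, ha, hb, hab, ?_⟩
    rw [fail_eq_empty hB hl hn hZ (transOn h hall hn hpe hpf hB hl ⟨Z, hZ⟩) ha hb,
      Set.ncard_empty]
  rw [h2, Set.ncard_coe_finset, card_tr h hef] at h1
  have h3 : 0 < n ^ 2 := by positivity
  nlinarith

end

end Pool.Agent.V7H30.DW
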