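import Pool.Agent.N606.ST.Planes

/-!
# Nuclei of a set of `n + 1` points in a projective plane of order `n`
-/

set_option autoImplicit false

namespace Pool.Agent.V7H30.DW

open Finset Pool.Agent.N606.ST

variable {V : Type} [Fintype V] [DecidableEq V] {n : ℕ} {B : Finset (Finset V)}

/-- the lines through `x` which meet `T` in more than one point -/
def sec (B : Finset (Finset V)) (T : Finset V) (x : V) : Finset (Finset V) :=
  (thru B x).filter fun b => 2 ≤ (b ∩ T).card

omit [Fintype V] in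
theorem mem_sec {T : Finset V} {x : V} {b : Finset V} :
    b ∈ sec B T x ↔ (b ∈ B ∧ x ∈ b) ∧ 2 ≤ (b ∩ T).card := by
  rw [sec, mem_filter, mem_thru]

omit [Fintype V] in
theorem double_count (B : Finset (Finset V)) (Z : Finset V) (f : Finset V → ℕ) :
    ∑ b ∈ B, ∑ _z ∈ b ∩ Z, f b = ∑ z ∈ Z, ∑ b ∈ thru B z, f b := by
  apply sum_comm'
  intro b z
  rw [mem_inter, mem_thru]
  tauto

variable (h : Plane n B)

include h

/-- many secants -/
theorem le_sec {T : Finset V} (hT : T.card = n + 1) {t : ℕ} (ht : ∀ b ∈ B, (b ∩ T).card ≤ t)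
    {x : V} (hx : x ∈ T) : n ≤ (sec B T x).card * (t - 1) := by
  have h1 : T.erase x ⊆ (sec B T x).biUnion fun b => (b ∩ T).erase x := by
    intro y hy
    rw [mem_erase] at hy
    obtain ⟨b, h2, h3, h4⟩ := h.join (Ne.symm hy.1)
    rw [mem_biUnion]
    refine ⟨b, mem_sec.2 ⟨⟨h2, h3⟩, ?_⟩, mem_erase.2 ⟨hy.1, mem_inter.2 ⟨h4, hy.2⟩⟩⟩
    exact one_lt_card.2 ⟨x, mem_inter.2 ⟨h3, hx⟩, y, mem_inter.2 ⟨h4, hy.2⟩, Ne.symm hy.1⟩
  calc n = (T.erase x).card := by
        rw [card_erase_of_mem hx, hT]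
        rfl
    _ ≤ _ := card_le_card h1
    _ ≤ ∑ b ∈ sec B T x, ((b ∩ T).erase x).card := card_biUnion_le
    _ ≤ ∑ b ∈ sec B T x, (t - 1) := by
        apply sum_le_sum
        intro b hb
        rw [mem_sec] at hb
        rw [card_erase_of_mem (mem_inter.2 ⟨hb.1.2, hx⟩)]
        have := ht b hb.1.1
        omega
    _ = _ := by rw [sum_const, smul_eq_mul]

theorem inter_le_sec {T m : Finset V} (hm : m ∈ B) {x : V} (hx : x ∈ T) (hxm : x ∉ m) :
    (m ∩ T).card ≤ (sec B T x).card := by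
  have hj : ∀ y ∈ m ∩ T, ∃ b ∈ B, x ∈ b ∧ y ∈ b := by
    intro y hy
    apply h.join
    rintro rfl
    exact hxm (mem_inter.1 hy).1
  choose! f hf1 hf2 hf3 using hj
  refine card_le_card_of_injOn f ?_ ?_
  · intro y hy
    have hy' : y ∈ m ∩ T := by exact_mod_cast hy
    rw [mem_coe, mem_sec]
    refine ⟨⟨hf1 y hy', hf2 y hy'⟩, ?_⟩
    refine one_lt_card.2 ⟨x, mem_inter.2 ⟨hf2 y hy', hx⟩, y,
      mem_inter.2 ⟨hf3 y hy', (mem_inter.1 hy').2⟩, ?_⟩
    rintro rfl
    exact hxm (mem_inter.1 hy').1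
  · intro y hy z hz hyz
    by_contra hne
    have hy' : y ∈ m ∩ T := by exact_mod_cast hy
    have hz' : z ∈ m ∩ T := by exact_mod_cast hz
    have h1 : f y = m := by
      refine h.eq (hf1 y hy') hm hne (hf3 y hy') ?_ (mem_inter.1 hy').1 (mem_inter.1 hz').1
      rw [hyz]
      exact hf3 z hz'
    apply hxm
    rw [← h1]
    exact hf2 y hy'

/-- All the lines through a nucleus are tangents. -/
theorem eq_one_of_nucleus (hn : 1 ≤ n) {T : Finset V} (hT : T.card = n + 1) {z : V} (hzT : z ∉ T)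
    (hz : ∀ b ∈ B, z ∈ b → (b ∩ T).card ≤ 1) {b : Finset V} (hb : b ∈ B) (hzb : z ∈ b) :
    (b ∩ T).card = 1 := by
  have h1 : T ⊆ (thru B z).biUnion fun b => b ∩ T := by
    intro y hy
    have hne : z ≠ y := by
      rintro rfl
      exact hzT hy
    obtain ⟨b, h2, h3, h4⟩ := h.join hne
    exact mem_biUnion.2 ⟨b, mem_thru.2 ⟨h2, h3⟩, mem_inter.2 ⟨h4, hy⟩⟩
  have h2 := (card_le_card h1).trans card_biUnion_le
  have hb' : b ∈ thru B z := mem_thru.2 ⟨hb, hzb⟩
  rw [hT, ← add_sum_erase _ _ hb'] at h2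
  have h3 : ∑ c ∈ (thru B z).erase b, (c ∩ T).card ≤ ∑ _c ∈ (thru B z).erase b, 1 := by
    apply sum_le_sum
    intro c hc
    have hc' := mem_thru.1 (mem_erase.1 hc).2
    exact hz c hc'.1 hc'.2
  rw [sum_const, smul_eq_mul, mul_one, card_erase_of_mem hb', h.card_thru hn] at h3
  have h4 := hz b hb hzb
  omega

/-- **Nuclei.** -/
theorem nuclei_sum' (hn : 1 ≤ n) {T Z : Finset V} (hT : T.card = n + 1)
    (hZ : ∀ z ∈ Z, z ∉ T ∧ ∀ b ∈ B, z ∈ b → (b ∩ T).card ≤ 1) :
    Z.card = 0 ∨ (Z.card + n) * ∑ x ∈ T, (sec B T x).card ≤ n * (n + 1) ^ 2 := by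
  rcases Nat.eq_zero_or_pos Z.card with h0 | h0
  · exact Or.inl h0
  right
  set R := ∑ x ∈ T, (sec B T x).card with hR
  set ν := Z.card with hν
  set 𝒯 := B.filter fun b => (b ∩ T).card = 1 with h𝒯
  have e1 : 𝒯.card + R ≤ (n + 1) ^ 2 := by
    have h1 : 𝒯 ⊆ T.biUnion fun x => (thru B x).filter fun b => (b ∩ T).card = 1 := by
      intro b hb
      rw [h𝒯, mem_filter] at hb
      obtain ⟨x, hx⟩ := card_pos.1 (by rw [hb.2]; omega : 0 < (b ∩ T).card)
      rw [mem_inter] at hx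
      exact mem_biUnion.2 ⟨x, hx.2, mem_filter.2 ⟨mem_thru.2 ⟨hb.1, hx.1⟩, hb.2⟩⟩
    have h2 := (card_le_card h1).trans card_biUnion_le
    have h3 : ∀ x ∈ T, ((thru B x).filter fun b => (b ∩ T).card = 1).card +
        (sec B T x).card ≤ n + 1 := by
      intro x _
      rw [← h.card_thru hn x, sec, ← card_union_of_disjoint]
      · exact card_le_card (union_subset (filter_subset _ _) (filter_subset _ _))
      · rw [Finset.disjoint_left]
        intro b h1 h2
        have h3 := (mem_filter.1 h1).2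
        have h4 := (mem_filter.1 h2).2
        omega
    have h4 := sum_le_sum h3
    rw [sum_add_distrib, sum_const, hT, smul_eq_mul] at h4
    have h5 : (n + 1) ^ 2 = (n + 1) * (n + 1) := sq _
    omega
  have e2 : ν * (n + 1) ≤ ∑ b ∈ 𝒯, (b ∩ Z).card := by
    have h1 := double_count B Z fun _ => 1
    simp only [sum_const, smul_eq_mul, mul_one] at h1
    have h2 : ∑ z ∈ Z, (thru B z).card = ν * (n + 1) := by
      rw [sum_congr rfl fun z _ => h.card_thru hn z, sum_const, smul_eq_mul]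
    rw [h2] at h1
    rw [← h1]
    refine (sum_subset (filter_subset _ _) ?_).symm.le
    intro b hb hb'
    rw [card_eq_zero, eq_empty_iff_forall_notMem]
    intro z hz
    rw [mem_inter] at hz
    apply hb'
    rw [mem_filter]
    exact ⟨hb, eq_one_of_nucleus h hn hT (hZ z hz.2).1 (hZ z hz.2).2 hb hz.1⟩
  have e3 : ∑ b ∈ 𝒯, (b ∩ Z).card ^ 2 ≤ ν * (ν + n) := by
    have h1 : ∑ b ∈ 𝒯, (b ∩ Z).card ^ 2 ≤ ∑ b ∈ B, (b ∩ Z).card ^ 2 :=
      sum_le_sum_of_subset (filter_subset _ _)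
    refine h1.trans ?_
    have h2 := double_count B Z fun b => (b ∩ Z).card
    simp only [sum_const, smul_eq_mul] at h2
    have h3 : ∑ b ∈ B, (b ∩ Z).card ^ 2 = ∑ b ∈ B, (b ∩ Z).card * (b ∩ Z).card :=
      sum_congr rfl fun b _ => sq _
    rw [h3, h2]
    have h4 : ∀ z ∈ Z, ∑ b ∈ thru B z, (b ∩ Z).card ≤ ν + n := by
      intro z hz
      have h5 : ∀ b ∈ thru B z, (b ∩ Z).card = ((b ∩ Z).erase z).card + 1 := by
        intro b hb
        have h6 : z ∈ b ∩ Z := mem_inter.2 ⟨(mem_thru.1 hb).2, hz⟩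
        rw [card_erase_of_mem h6]
        have := card_pos.2 ⟨z, h6⟩
        omega
      rw [sum_congr rfl h5, sum_add_distrib, sum_const, smul_eq_mul, mul_one, h.card_thru hn]
      have h6 : ∑ b ∈ thru B z, ((b ∩ Z).erase z).card =
          ((thru B z).biUnion fun b => (b ∩ Z).erase z).card := by
        symm
        apply card_biUnion
        intro b hb c hc hbc
        rw [Function.onFun, Finset.disjoint_left]
        intro y h1 h2
        rw [mem_coe, mem_thru] at hb hc
        rw [mem_erase, mem_inter] at h1 h2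
        exact hbc (h.eq hb.1 hc.1 h1.1 h1.2.1 hb.2 h2.2.1 hc.2)
      have h7 : ((thru B z).biUnion fun b => (b ∩ Z).erase z) ⊆ Z.erase z := by
        intro y hy
        rw [mem_biUnion] at hy
        obtain ⟨b, _, hy⟩ := hy
        rw [mem_erase, mem_inter] at hy
        exact mem_erase.2 ⟨hy.1, hy.2.2⟩
      have h8 := card_le_card h7
      rw [card_erase_of_mem hz] at h8
      omega
    have h5 := sum_le_sum h4
    rw [sum_const, smul_eq_mul] at h5
    exact h5
  have e4 : (∑ b ∈ 𝒯, (b ∩ Z).card) ^ 2 ≤ 𝒯.card * ∑ b ∈ 𝒯, (b ∩ Z).card ^ 2 :=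
    sq_sum_le_card_mul_sum_sq
  have e5 : (ν * (n + 1)) ^ 2 ≤ 𝒯.card * (ν * (ν + n)) :=
    (Nat.pow_le_pow_left e2 2).trans (e4.trans (Nat.mul_le_mul_left _ e3))
  have e6 : ν * (n + 1) ^ 2 ≤ 𝒯.card * (ν + n) := by
    have h1 : ν * (ν * (n + 1) ^ 2) ≤ ν * (𝒯.card * (ν + n)) := by
      calc ν * (ν * (n + 1) ^ 2) = (ν * (n + 1)) ^ 2 := by ring
        _ ≤ 𝒯.card * (ν * (ν + n)) := e5
        _ = _ := by ring
    exact Nat.le_of_mul_le_mul_left h1 h0
  have e7 : (𝒯.card + R) * (ν + n) ≤ (n + 1) ^ 2 * (ν + n) := Nat.mul_le_mul_right _ e1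
  nlinarith

theorem nuclei_sum (hn : 1 ≤ n) {T Z : Finset V} (hT : T.card = n + 1)
    (hZ : ∀ z ∈ Z, z ∉ T ∧ ∀ b ∈ B, z ∈ b → (b ∩ T).card ≤ 1) :
    Z.card * ∑ x ∈ T, (sec B T x).card ≤ n * (n + 1) ^ 2 := by
  rcases nuclei_sum' h hn hT hZ with h0 | h0
  · rw [h0]
    omega
  · exact (Nat.mul_le_mul_right _ (Nat.le_add_right _ _)).trans h0

/-- A set of `n + 1` points which is not a line has at most `n (n - 1) / 2` nuclei. -/
theorem nuclei_half (hn : 2 ≤ n) {T Z : Finset V} (hT : T.card = n + 1) (hTB : T ∉ B)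
    (hZ : ∀ z ∈ Z, z ∉ T ∧ ∀ b ∈ B, z ∈ b → (b ∩ T).card ≤ 1) :
    2 * Z.card ≤ n * (n - 1) := by
  have hle : ∀ b ∈ B, (b ∩ T).card ≤ n := by
    intro m hm
    by_contra hlt
    push Not at hlt
    have h1 : m ∩ T = T := eq_of_subset_of_card_le inter_subset_right (by rw [hT]; exact hlt)
    have h2 : T = m := by
      refine eq_of_subset_of_card_le ?_ ?_
      · rw [← h1]
        exact inter_subset_left
      · rw [h.2.1 m hm, hT]
    exact hTB (h2 ▸ hm)
  have h2 : ∀ x ∈ T, 2 ≤ (sec B T x).card := by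
    intro x hx
    have h3 := le_sec h hT hle hx
    by_contra hlt
    have h4 : (sec B T x).card * (n - 1) ≤ 1 * (n - 1) := Nat.mul_le_mul_right _ (by omega)
    omega
  have h3 := sum_le_sum h2
  rw [sum_const, hT, smul_eq_mul] at h3
  rcases nuclei_sum' h (by omega) hT hZ with h0 | h0
  · rw [h0]
    omega
  · have h4 : (Z.card + n) * ((n + 1) * 2) ≤ n * (n + 1) ^ 2 := (Nat.mul_le_mul_left _ h3).trans h0
    have h5 : (n + 1) * (2 * Z.card + 2 * n) ≤ (n + 1) * (n * (n + 1)) := by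
      calc (n + 1) * (2 * Z.card + 2 * n) = (Z.card + n) * ((n + 1) * 2) := by ring
        _ ≤ _ := h4
        _ = _ := by ring
    have h6 := Nat.le_of_mul_le_mul_left h5 (by omega)
    obtain ⟨m, rfl⟩ : ∃ m, n = m + 1 := ⟨n - 1, by omega⟩
    rw [Nat.add_sub_cancel]
    nlinarith

/-- The number of nuclei of a set of `n + 1` points which is not a line. -/
theorem nuclei (hn : 2 ≤ n) {T Z : Finset V} (hT : T.card = n + 1) (hTB : T ∉ B)
    (hZ : ∀ z ∈ Z, z ∉ T ∧ ∀ b ∈ B, z ∈ b → (b ∩ T).card ≤ 1) :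
    Z.card ^ 2 ≤ 4 * n * (n + 1) ^ 2 := by
  -- a line with the largest number of points of `T`
  have hB : B.Nonempty := by
    obtain ⟨x, _, y, _, hxy⟩ := one_lt_card.1 (by omega : 1 < T.card)
    obtain ⟨b, hb, _⟩ := h.join hxy
    exact ⟨b, hb⟩
  obtain ⟨m, hm, hmax⟩ := exists_max_image B (fun b => (b ∩ T).card) hB
  set t := (m ∩ T).card with ht
  have htT : t ≤ n := by
    by_contra hlt
    push Not at hlt
    have h1 : m ∩ T = T := eq_of_subset_of_card_le inter_subset_right (by rw [hT]; exact hlt)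
    have h2 : T = m := by
      refine eq_of_subset_of_card_le ?_ ?_
      · rw [← h1]
        exact inter_subset_left
      · rw [h.2.1 m hm, hT]
    exact hTB (h2 ▸ hm)
  obtain ⟨s, hs⟩ : ∃ s, n + 1 = t + s := ⟨n + 1 - t, by omega⟩
  have hs1 : 1 ≤ s := by omega
  have hTm : (T \ m).card = s := by
    have h1 := card_sdiff_add_card_inter T m
    rw [inter_comm T m, ← ht, hT] at h1
    omega
  have hx1 : ∀ x ∈ T, n ≤ (sec B T x).card * (t - 1) := fun x hx => le_sec h hT hmax hx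
  have hx2 : ∀ x ∈ T \ m, t ≤ (sec B T x).card := by
    intro x hx
    rw [mem_sdiff] at hx
    exact inter_le_sec h hm hx.1 hx.2
  set R := ∑ x ∈ T, (sec B T x).card with hR
  set ν := Z.card with hν
  have f1 : ν * R ≤ n * (n + 1) ^ 2 := nuclei_sum h (by omega) hT hZ
  have f2 : n * (n + 1) ≤ R * (t - 1) := by
    have h1 := sum_le_sum hx1
    rw [sum_const, hT, smul_eq_mul, ← sum_mul] at h1
    rw [Nat.mul_comm n]
    exact h1
  have f3 : s * t ≤ R := by
    have h1 := sum_le_sum hx2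
    rw [sum_const, hTm, smul_eq_mul] at h1
    exact h1.trans (sum_le_sum_of_subset sdiff_subset)
  have ht2 : 2 ≤ t := by
    by_contra hlt
    have h1 : t - 1 = 0 := by omega
    rw [h1, Nat.mul_zero] at f2
    have : 0 < n * (n + 1) := by positivity
    omega
  -- the tangents at a point outside `m`
  have htan : ∀ x ∈ T \ m, ((thru B x).filter fun b => ¬ 2 ≤ (b ∩ T).card).card ≤ s := by
    intro x hx
    have h1 := card_filter_add_card_filter_not (s := thru B x) fun b => 2 ≤ (b ∩ T).card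
    rw [h.card_thru (by omega)] at h1
    have h2 := hx2 x hx
    rw [sec] at h2
    omega
  obtain ⟨x, hx⟩ : (T \ m).Nonempty := card_pos.1 (by omega)
  have hxT : x ∈ T := (mem_sdiff.1 hx).1
  by_cases h1s : s = 1
  · -- all the nuclei are on one line
    have h1 : Z ⊆ ((thru B x).filter fun b => ¬ 2 ≤ (b ∩ T).card).biUnion fun b => b.erase x := by
      intro z hz
      have hzx : x ≠ z := by
        rintro rfl
        exact (hZ x hz).1 hxT
      obtain ⟨b, hb, h2, h3⟩ := h.join hzx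
      refine mem_biUnion.2 ⟨b, mem_filter.2 ⟨mem_thru.2 ⟨hb, h2⟩, ?_⟩,
        mem_erase.2 ⟨hzx.symm, h3⟩⟩
      have := (hZ z hz).2 b hb h3
      omega
    have h2 := (card_le_card h1).trans card_biUnion_le
    have h3 : ∑ b ∈ (thru B x).filter (fun b => ¬ 2 ≤ (b ∩ T).card), (b.erase x).card ≤
        ∑ _b ∈ (thru B x).filter (fun b => ¬ 2 ≤ (b ∩ T).card), n := by
      apply sum_le_sum
      intro b hb
      have hb' := mem_thru.1 (mem_filter.1 hb).1
      rw [card_erase_of_mem hb'.2, h.2.1 b hb'.1]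
      exact le_rfl
    rw [sum_const, smul_eq_mul] at h3
    have h4 := htan x hx
    rw [h1s] at h4
    have h5 : ν ≤ n := by
      refine h2.trans (h3.trans ?_)
      calc _ ≤ 1 * n := Nat.mul_le_mul_right _ h4
        _ = n := Nat.one_mul n
    calc ν ^ 2 ≤ n ^ 2 := Nat.pow_le_pow_left h5 2
      _ ≤ _ := by nlinarith
  · have hs2 : 2 ≤ s := by omega
    -- two points outside `m`
    have f4 : ν ≤ s ^ 2 := by
      obtain ⟨y, hy, hyx⟩ := exists_mem_ne (by omega : 1 < (T \ m).card) x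
      have hyT : y ∈ T := (mem_sdiff.1 hy).1
      have hj : ∀ w ∈ T, ∀ z ∈ Z, ∃ b ∈ B, w ∈ b ∧ z ∈ b := by
        intro w hw z hz
        apply h.join
        rintro rfl
        exact (hZ w hz).1 hw
      choose! f hf1 hf2 hf3 using hj
      have h1 : Z.card ≤ (((thru B x).filter fun b => ¬ 2 ≤ (b ∩ T).card) ×ˢ
          ((thru B y).filter fun b => ¬ 2 ≤ (b ∩ T).card)).card := by
        refine card_le_card_of_injOn (fun z => (f x z, f y z)) ?_ ?_
        · intro z hz
          rw [mem_coe] at hz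
          rw [mem_coe, mem_product]
          refine ⟨mem_filter.2 ⟨mem_thru.2 ⟨hf1 x hxT z hz, hf2 x hxT z hz⟩, ?_⟩,
            mem_filter.2 ⟨mem_thru.2 ⟨hf1 y hyT z hz, hf2 y hyT z hz⟩, ?_⟩⟩
          · have := (hZ z hz).2 _ (hf1 x hxT z hz) (hf3 x hxT z hz)
            simp only
            omega
          · have := (hZ z hz).2 _ (hf1 y hyT z hz) (hf3 y hyT z hz)
            simp only
            omega
        · intro z hz w hw hzw
          rw [mem_coe] at hz hw
          simp only [Prod.mk.injEq] at hzw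
          by_contra hne
          have h2 : f x z = f y z := by
            refine h.eq (hf1 x hxT z hz) (hf1 y hyT z hz) hne (hf3 x hxT z hz) ?_
              (hf3 y hyT z hz) ?_
            · rw [hzw.1]
              exact hf3 x hxT w hw
            · rw [hzw.2]
              exact hf3 y hyT w hw
          have h3 := (hZ z hz).2 _ (hf1 x hxT z hz) (hf3 x hxT z hz)
          have h4 : 1 < (f x z ∩ T).card := by
            refine one_lt_card.2 ⟨x, mem_inter.2 ⟨hf2 x hxT z hz, hxT⟩, y, mem_inter.2 ⟨?_, hyT⟩,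
              hyx.symm⟩
            rw [h2]
            exact hf2 y hyT z hz
          omega
      rw [card_product] at h1
      calc ν ≤ _ := h1
        _ ≤ s * s := Nat.mul_le_mul (htan x hx) (htan y hy)
        _ = s ^ 2 := (sq s).symm
    have f5 : ν * (s * t) ≤ n * (n + 1) ^ 2 := (Nat.mul_le_mul_left _ f3).trans f1
    obtain ⟨u, rfl⟩ : ∃ u, n = u + 2 := ⟨n - 2, by omega⟩
    rcases le_total t s with hts | hst
    · -- `t` is at most half of `n + 1`
      have g1 : ν * ((u + 2) * (u + 3)) ≤ (u + 2) * (u + 3) ^ 2 * (t - 1) := by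
        calc ν * ((u + 2) * (u + 3)) ≤ ν * (R * (t - 1)) := Nat.mul_le_mul_left _ f2
          _ = (ν * R) * (t - 1) := by ring
          _ ≤ _ := Nat.mul_le_mul_right _ f1
      have g2 : ν ≤ (u + 3) * (t - 1) := by
        have h1 : ((u + 2) * (u + 3)) * ν ≤ ((u + 2) * (u + 3)) * ((u + 3) * (t - 1)) := by
          calc ((u + 2) * (u + 3)) * ν = ν * ((u + 2) * (u + 3)) := by ring
            _ ≤ _ := g1
            _ = _ := by ring
        exact Nat.le_of_mul_le_mul_left h1 (by positivity)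
      have g3 : ν * t ≤ 2 * (u + 2) * (u + 3) := by
        have h1 : (u + 3) * (ν * t) ≤ (u + 3) * (2 * (u + 2) * (u + 3)) := by
          have h2 : u + 3 ≤ 2 * s := by omega
          calc (u + 3) * (ν * t) ≤ (2 * s) * (ν * t) := Nat.mul_le_mul_right _ h2
            _ = 2 * (ν * (s * t)) := by ring
            _ ≤ 2 * ((u + 2) * (u + 2 + 1) ^ 2) := Nat.mul_le_mul_left _ f5
            _ = _ := by ring
        exact Nat.le_of_mul_le_mul_left h1 (by omega)
      have g4 : ν ^ 2 * t ≤ (4 * (u + 2) * (u + 2 + 1) ^ 2) * t := by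
        calc ν ^ 2 * t = ν * (ν * t) := by ring
          _ ≤ ((u + 3) * (t - 1)) * (2 * (u + 2) * (u + 3)) := Nat.mul_le_mul g2 g3
          _ ≤ ((u + 3) * t) * (2 * (u + 2) * (u + 3)) :=
              Nat.mul_le_mul_right _ (Nat.mul_le_mul_left _ (Nat.sub_le t 1))
          _ = (2 * (u + 2) * (u + 2 + 1) ^ 2) * t := by ring
          _ ≤ _ := Nat.mul_le_mul_right _ (by
              have : 2 * (u + 2) ≤ 4 * (u + 2) := by omega
              exact Nat.mul_le_mul_right _ this)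
      exact Nat.le_of_mul_le_mul_right g4 (by omega)
    · have g1 : ν * s ≤ 2 * (u + 2) * (u + 3) := by
        have h1 : (u + 3) * (ν * s) ≤ (u + 3) * (2 * (u + 2) * (u + 3)) := by
          have h2 : u + 3 ≤ 2 * t := by omega
          calc (u + 3) * (ν * s) ≤ (2 * t) * (ν * s) := Nat.mul_le_mul_right _ h2
            _ = 2 * (ν * (s * t)) := by ring
            _ ≤ 2 * ((u + 2) * (u + 2 + 1) ^ 2) := Nat.mul_le_mul_left _ f5
            _ = _ := by ring
        exact Nat.le_of_mul_le_mul_left h1 (by omega)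
      have g2 : ν ^ 3 ≤ (2 * (u + 2) * (u + 3)) ^ 2 := by
        calc ν ^ 3 = ν * ν ^ 2 := by ring
          _ ≤ s ^ 2 * ν ^ 2 := Nat.mul_le_mul_right _ f4
          _ = (ν * s) ^ 2 := by ring
          _ ≤ _ := Nat.pow_le_pow_left g1 2
      by_contra hcon
      push Not at hcon
      have g3 : 2 * (u + 2) < ν := by
        by_contra hle
        push Not at hle
        have h1 := Nat.pow_le_pow_left hle 2
        have h2 : (2 * (u + 2)) ^ 2 ≤ 4 * (u + 2) * (u + 2 + 1) ^ 2 := by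
          nlinarith [Nat.zero_le u, sq_nonneg (u : ℤ)]
        omega
      have g4 : (2 * (u + 2)) * (4 * (u + 2) * (u + 2 + 1) ^ 2) < ν * ν ^ 2 :=
        Nat.mul_lt_mul'' g3 hcon
      have g5 : (2 * (u + 2) * (u + 3)) ^ 2 ≤ (2 * (u + 2)) * (4 * (u + 2) * (u + 2 + 1) ^ 2) := by
        have h1 : (2 * (u + 2) * (u + 3)) ^ 2 = 4 * ((u + 2) * (u + 3)) ^ 2 := by ring
        have h2 : (2 * (u + 2)) * (4 * (u + 2) * (u + 2 + 1) ^ 2) = 8 * ((u + 2) * (u + 3)) ^ 2 := by
          ring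
        rw [h1, h2]
        exact Nat.mul_le_mul_right _ (by norm_num)
      have g6 : ν ^ 3 = ν * ν ^ 2 := by ring
      omega

end Pool.Agent.V7H30.DW
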