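import Mathlib

/-!
# Symmetric designs, and lines in symmetric designs with the parameters of three-dimensional space
-/

set_option autoImplicit false

namespace Pool.Agent.V7H30.DW

open Finset

noncomputable section

open Classical in
/-- the points of a block -/
def pts {P B : Type} [Fintype P] (I : P → B → Prop) (b : B) : Finset P := univ.filter fun x => I x b

open Classical in
/-- the blocks through a point -/
def thr {P B : Type} [Fintype B] (I : P → B → Prop) (x : P) : Finset B := univ.filter fun b => I x b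

open Classical in
/-- Symmetric designs. -/
structure Sym {P B : Type} [Fintype P] [Fintype B] (I : P → B → Prop) (v k l : ℕ) : Prop where
  cardP : Fintype.card P = v
  cardB : Fintype.card B = v
  bl : ∀ b, (pts I b).card = k
  pt : ∀ x, (thr I x).card = k
  pp : ∀ x y, x ≠ y → (thr I x ∩ thr I y).card = l
  bb : ∀ b c, b ≠ c → (pts I b ∩ pts I c).card = l

variable {P B : Type} [Fintype P] [Fintype B] {I : P → B → Prop} {v k l : ℕ}

omit [Fintype B] in
@[simp] theorem mem_pts {b : B} {x : P} : x ∈ pts I b ↔ I x b := by simp [pts]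

omit [Fintype P] in
@[simp] theorem mem_thr {b : B} {x : P} : b ∈ thr I x ↔ I x b := by simp [thr]

theorem Sym.dual (h : Sym I v k l) : Sym (flip I) v k l where
  cardP := h.cardB
  cardB := h.cardP
  bl := h.pt
  pt := h.bl
  pp := h.bb
  bb := h.pp

omit [Fintype B] in
open Classical in
theorem card_inter_pts (S : Finset P) (b : B) :
    (S ∩ pts I b).card = ∑ x ∈ S, if I x b then 1 else 0 := by
  rw [← card_filter]
  congr 1
  ext x
  simp

omit [Fintype P] in
open Classical in
theorem card_thr_inter (x y : P) :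
    (thr I x ∩ thr I y).card = ∑ b, (if I x b then 1 else 0) * (if I y b then 1 else 0) := by
  have h1 : ∀ b, (if I x b then 1 else 0) * (if I y b then 1 else 0) =
      if I x b ∧ I y b then 1 else 0 := by
    intro b
    by_cases h1 : I x b <;> by_cases h2 : I y b <;> simp [h1, h2]
  rw [sum_congr rfl fun b _ => h1 b, ← card_filter]
  congr 1
  ext b
  simp

open Classical in
theorem sum_cnt (S : Finset P) : ∑ b, (S ∩ pts I b).card = ∑ x ∈ S, (thr I x).card := by
  rw [sum_congr rfl fun b _ => card_inter_pts S b, sum_comm]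
  refine sum_congr rfl fun x _ => ?_
  rw [← card_filter]
  rfl

open Classical in
theorem sum_cnt_sq (S : Finset P) :
    ∑ b, (S ∩ pts I b).card ^ 2 = ∑ x ∈ S, ∑ y ∈ S, (thr I x ∩ thr I y).card := by
  have h1 : ∀ b, (S ∩ pts I b).card ^ 2 =
      ∑ x ∈ S, ∑ y ∈ S, (if I x b then 1 else 0) * (if I y b then 1 else 0) := by
    intro b
    rw [card_inter_pts, sq, sum_mul_sum]
  rw [sum_congr rfl fun b _ => h1 b, sum_comm]
  refine sum_congr rfl fun x _ => ?_
  rw [sum_comm]
  refine sum_congr rfl fun y _ => ?_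
  rw [card_thr_inter]

open Classical in
theorem Sym.sum1 (h : Sym I v k l) (S : Finset P) : ∑ b, (S ∩ pts I b).card = S.card * k := by
  rw [sum_cnt, sum_congr rfl fun x _ => h.pt x, sum_const, smul_eq_mul]

omit [Fintype P] in
open Classical in
theorem sum_pp {S : Finset P} (hpt : ∀ x, (thr I x).card = k)
    (hpp : ∀ x y, x ≠ y → (thr I x ∩ thr I y).card = l) :
    ∑ x ∈ S, ∑ y ∈ S, (thr I x ∩ thr I y).card + S.card * l = S.card * k + S.card ^ 2 * l := by
  have h1 : ∀ x ∈ S, ∑ y ∈ S, (thr I x ∩ thr I y).card + l = k + S.card * l := by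
    intro x hx
    rw [← add_sum_erase _ _ hx, inter_self, hpt]
    have h2 : ∑ y ∈ S.erase x, (thr I x ∩ thr I y).card = (S.erase x).card * l := by
      rw [sum_congr rfl fun y hy => hpp x y (Ne.symm (mem_erase.1 hy).1), sum_const, smul_eq_mul]
    rw [h2, card_erase_of_mem hx]
    have h3 : 1 ≤ S.card := card_pos.2 ⟨x, hx⟩
    obtain ⟨m, hm⟩ : ∃ m, S.card = m + 1 := ⟨S.card - 1, by omega⟩
    rw [hm, Nat.add_sub_cancel]
    ring
  have h2 : ∑ x ∈ S, (∑ y ∈ S, (thr I x ∩ thr I y).card + l) = ∑ x ∈ S, (k + S.card * l) :=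
    sum_congr rfl h1
  rw [sum_add_distrib, sum_const, sum_const, smul_eq_mul, smul_eq_mul] at h2
  rw [h2]
  ring

open Classical in
theorem Sym.sum2 (h : Sym I v k l) (S : Finset P) :
    ∑ b, (S ∩ pts I b).card ^ 2 + S.card * l = S.card * k + S.card ^ 2 * l := by
  rw [sum_cnt_sq]
  exact sum_pp h.pt h.pp

open Classical in
/-- `v` points, `v` blocks of size `k`, every two points on `l` blocks. -/
theorem Sym.of_pp (hP : Fintype.card P = v) (hB : Fintype.card B = v)
    (hbl : ∀ b : B, (pts I b).card = k)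
    (hpp : ∀ x y, x ≠ y → (thr I x ∩ thr I y).card = l) (hk : 2 ≤ k) (hv : 1 ≤ v)
    (hkv : k * (k - 1) = l * (v - 1)) : Sym I v k l := by
  obtain ⟨k', rfl⟩ : ∃ k', k = k' + 2 := ⟨k - 2, by omega⟩
  obtain ⟨v', rfl⟩ : ∃ v', v = v' + 1 := ⟨v - 1, by omega⟩
  have e1 : k' + 2 - 1 = k' + 1 := rfl
  rw [e1, Nat.add_sub_cancel] at hkv
  have hpt : ∀ x, (thr I x).card = k' + 2 := by
    intro x
    have h1 : ∑ y, (thr I x ∩ thr I y).card = (thr I x).card * (k' + 2) := by
      have h2 : ∑ y, (thr I x ∩ thr I y).card = ∑ b ∈ thr I x, (pts I b).card := by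
        have h3 : ∀ y, (thr I x ∩ thr I y).card = ∑ b ∈ thr I x, if I y b then 1 else 0 := by
          intro y
          rw [← card_filter]
          congr 1
          ext b
          simp
        rw [sum_congr rfl fun y _ => h3 y, sum_comm]
        refine sum_congr rfl fun b _ => ?_
        rw [← card_filter]
        rfl
      rw [h2, sum_congr rfl fun b _ => hbl b, sum_const, smul_eq_mul]
    rw [← add_sum_erase _ _ (mem_univ x), inter_self,
      sum_congr rfl fun y hy => hpp x y (Ne.symm (mem_erase.1 hy).1), sum_const,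
      card_erase_of_mem (mem_univ x), card_univ, hP, smul_eq_mul, Nat.add_sub_cancel] at h1
    have h2 : (thr I x).card * (k' + 1) = (k' + 2) * (k' + 1) := by
      rw [hkv]
      nlinarith
    exact Nat.eq_of_mul_eq_mul_right (by omega) h2
  refine ⟨hP, hB, hbl, hpt, hpp, ?_⟩
  intro b₀ c hbc
  have h1 := sum_cnt (I := I) (pts I b₀)
  rw [sum_congr rfl fun x _ => hpt x, sum_const, smul_eq_mul, hbl] at h1
  have h2 := sum_cnt_sq (I := I) (pts I b₀)
  have h3 := sum_pp (S := pts I b₀) hpt hpp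
  rw [← h2, hbl] at h3
  -- the sum of the squares of the deviations
  have h4 : ∑ b ∈ univ.erase b₀, (((pts I b₀ ∩ pts I b).card : ℤ) - l) ^ 2 = 0 := by
    have h5 : ∑ b, (((pts I b₀ ∩ pts I b).card : ℤ) - l) ^ 2 =
        ∑ b, ((pts I b₀ ∩ pts I b).card : ℤ) ^ 2 - 2 * l * ∑ b, ((pts I b₀ ∩ pts I b).card : ℤ) +
          (v' + 1) * l ^ 2 := by
      have h6 : ∀ b, (((pts I b₀ ∩ pts I b).card : ℤ) - l) ^ 2 =
          ((pts I b₀ ∩ pts I b).card : ℤ) ^ 2 - 2 * l * ((pts I b₀ ∩ pts I b).card : ℤ) + l ^ 2 :=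
        fun b => by ring
      rw [sum_congr rfl fun b _ => h6 b, sum_add_distrib, sum_sub_distrib, ← mul_sum, sum_const,
        card_univ, hB, nsmul_eq_mul]
      push_cast
      ring
    rw [← add_sum_erase _ _ (mem_univ b₀), inter_self, hbl] at h5
    have h1' : ∑ b, ((pts I b₀ ∩ pts I b).card : ℤ) = (k' + 2) * (k' + 2) := by
      exact_mod_cast h1
    have h3' : ∑ b, ((pts I b₀ ∩ pts I b).card : ℤ) ^ 2 + (k' + 2) * l =
        (k' + 2) * (k' + 2) + (k' + 2) ^ 2 * l := by
      exact_mod_cast h3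
    have hkv' : ((k' : ℤ) + 2) * (k' + 1) = l * v' := by exact_mod_cast hkv
    rw [h1'] at h5
    push_cast at h5
    linear_combination h5 + h3' - l * hkv'
  have h5 := (sum_eq_zero_iff_of_nonneg fun b _ => sq_nonneg _).1 h4 c
    (mem_erase.2 ⟨hbc.symm, mem_univ _⟩)
  have h6 : ((pts I b₀ ∩ pts I c).card : ℤ) - l = 0 := by
    exact pow_eq_zero_iff (two_ne_zero) |>.1 h5
  omega

end

end Pool.Agent.V7H30.DW
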