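import Pool.Agent.V7H30.DW.Base

/-!
# Lines in symmetric designs with the parameters of three-dimensional projective space
-/

set_option autoImplicit false

namespace Pool.Agent.V7H30.DW

open Finset

noncomputable section

open Classical in
/-- the intersection of the blocks through two points -/
def line {P B : Type} [Fintype P] (I : P → B → Prop) (x y : P) : Finset P :=
  univ.filter fun z => ∀ b, I x b → I y b → I z b

/-- Two points are joined by a line of `n + 1` points. -/
def Good {P B : Type} [Fintype P] (I : P → B → Prop) (n : ℕ) (x y : P) : Prop :=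
  x ≠ y ∧ (line I x y).card = n + 1

/-- A point all of whose lines have `n + 1` points. -/
def Perf {P B : Type} [Fintype P] (I : P → B → Prop) (n : ℕ) (p : P) : Prop :=
  ∀ y, p ≠ y → Good I n p y

variable {P B : Type} [Fintype P] [Fintype B] {I : P → B → Prop} {n : ℕ}

/-- A symmetric design with the parameters of the projective space of dimension 3 and order `n`. -/
abbrev Des (I : P → B → Prop) (n : ℕ) : Prop :=
  Sym I (n ^ 3 + n ^ 2 + n + 1) (n ^ 2 + n + 1) (n + 1)

omit [Fintype B] in
theorem mem_line {x y z : P} : z ∈ line I x y ↔ ∀ b, I x b → I y b → I z b := by simp [line]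

omit [Fintype B] in
theorem left_mem (x y : P) : x ∈ line I x y := mem_line.2 fun _ h _ => h

omit [Fintype B] in
theorem right_mem (x y : P) : y ∈ line I x y := mem_line.2 fun _ _ h => h

omit [Fintype B] in
theorem line_comm (x y : P) : line I x y = line I y x := by
  ext z
  rw [mem_line, mem_line]
  exact ⟨fun h b h1 h2 => h b h2 h1, fun h b h1 h2 => h b h2 h1⟩

omit [Fintype B] in
theorem Good.symm {x y : P} (h : Good I n x y) : Good I n y x :=
  ⟨h.1.symm, by rw [line_comm]; exact h.2⟩

omit [Fintype B] in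
theorem line_sub {x y : P} {b : B} (h1 : I x b) (h2 : I y b) : line I x y ⊆ pts I b :=
  fun _ hz => mem_pts.2 (mem_line.1 hz b h1 h2)

open Classical in
/-- A set of `n + 1` points which is met by no block in more than one and less than `n + 1`
points is met by all the blocks. -/
theorem key (h : Des I n) {S : Finset P} (hS : S.card = n + 1)
    (hc : ∀ b, (S ∩ pts I b).card ≤ 1 ∨ (S ∩ pts I b).card = n + 1) (b : B) :
    (S ∩ pts I b).Nonempty := by
  by_contra hne
  rw [not_nonempty_iff_eq_empty] at hne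
  have h1 := h.sum1 S
  have h2 := h.sum2 S
  rw [hS] at h1 h2
  have h3 : ∑ b, (((S ∩ pts I b).card : ℤ) - 1) * (((S ∩ pts I b).card : ℤ) - (n + 1)) = 0 := by
    have h4 : ∀ b, (((S ∩ pts I b).card : ℤ) - 1) * (((S ∩ pts I b).card : ℤ) - (n + 1)) =
        ((S ∩ pts I b).card : ℤ) ^ 2 - (n + 2) * ((S ∩ pts I b).card : ℤ) + (n + 1) := by
      intro b
      ring
    rw [sum_congr rfl fun b _ => h4 b, sum_add_distrib, sum_sub_distrib, ← mul_sum, sum_const,
      card_univ, h.cardB, nsmul_eq_mul]
    have h1' : ∑ b, ((S ∩ pts I b).card : ℤ) = (n + 1) * (n ^ 2 + n + 1) := by exact_mod_cast h1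
    have h2' : ∑ b, ((S ∩ pts I b).card : ℤ) ^ 2 + (n + 1) * (n + 1) =
        (n + 1) * (n ^ 2 + n + 1) + (n + 1) ^ 2 * (n + 1) := by exact_mod_cast h2
    rw [h1']
    push_cast
    linear_combination h2'
  have h4 := (sum_eq_zero_iff_of_nonneg (fun b _ => ?_)).1 h3 b (mem_univ b)
  · rw [hne, card_empty] at h4
    push_cast at h4
    have : ((n : ℤ) + 1) = 0 := by linarith
    omega
  · rcases hc b with h5 | h5
    · rcases Nat.le_one_iff_eq_zero_or_eq_one.1 h5 with h6 | h6
      · rw [h6]
        push_cast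
        have : (0 : ℤ) ≤ n := Int.natCast_nonneg n
        linarith
      · rw [h6]
        simp
    · rw [h5]
      push_cast
      simp

open Classical in
theorem thr_eq (h : Des I n) {x y z w : P} (hxy : x ≠ y) (hz : z ∈ line I x y)
    (hw : w ∈ line I x y) (hzw : z ≠ w) : thr I x ∩ thr I y = thr I z ∩ thr I w := by
  refine eq_of_subset_of_card_le ?_ ?_
  · intro b hb
    rw [mem_inter, mem_thr, mem_thr] at hb ⊢
    exact ⟨mem_line.1 hz b hb.1 hb.2, mem_line.1 hw b hb.1 hb.2⟩
  · rw [h.pp x y hxy, h.pp z w hzw]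

theorem thr_iff (h : Des I n) {x y z w : P} (hxy : x ≠ y) (hz : z ∈ line I x y)
    (hw : w ∈ line I x y) (hzw : z ≠ w) (b : B) : (I x b ∧ I y b) ↔ (I z b ∧ I w b) := by
  classical
  have h1 := congrArg (fun s => b ∈ s) (thr_eq h hxy hz hw hzw)
  simp only [mem_inter, mem_thr, eq_iff_iff] at h1
  exact h1

theorem line_eq (h : Des I n) {x y z w : P} (hxy : x ≠ y) (hz : z ∈ line I x y)
    (hw : w ∈ line I x y) (hzw : z ≠ w) : line I z w = line I x y := by
  ext t
  rw [mem_line, mem_line]
  refine forall_congr' fun b => ?_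
  have h1 := thr_iff h hxy hz hw hzw b
  tauto

theorem Good.of_mem (h : Des I n) {x y z w : P} (hg : Good I n x y) (hz : z ∈ line I x y)
    (hw : w ∈ line I x y) (hzw : z ≠ w) : Good I n z w :=
  ⟨hzw, by rw [line_eq h hg.1 hz hw hzw]; exact hg.2⟩

/-- A block with two points of a line contains the line. -/
theorem sub_of_two (h : Des I n) {x y z w : P} (hxy : x ≠ y) (hz : z ∈ line I x y)
    (hw : w ∈ line I x y) (hzw : z ≠ w) {b : B} (h1 : I z b) (h2 : I w b) : I x b ∧ I y b :=
  (thr_iff h hxy hz hw hzw b).2 ⟨h1, h2⟩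

/-- Every block meets every good line. -/
theorem exists_meet (h : Des I n) {x y : P} (hg : Good I n x y) (b : B) :
    ∃ z ∈ line I x y, I z b := by
  classical
  have hc : ∀ b, (line I x y ∩ pts I b).card ≤ 1 ∨ (line I x y ∩ pts I b).card = n + 1 := by
    intro b
    by_cases h1 : (line I x y ∩ pts I b).card ≤ 1
    · exact Or.inl h1
    · right
      push Not at h1
      obtain ⟨z, hz, w, hw, hzw⟩ := one_lt_card.1 h1
      rw [mem_inter, mem_pts] at hz hw
      have h2 := sub_of_two h hg.1 hz.1 hw.1 hzw hz.2 hw.2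
      rw [inter_eq_left.2 (line_sub h2.1 h2.2), hg.2]
  obtain ⟨z, hz⟩ := key h hg.2 hc b
  rw [mem_inter, mem_pts] at hz
  exact ⟨z, hz⟩

/-- A block which does not contain a good line has at most one point of it. -/
theorem meet_unique (h : Des I n) {x y z w : P} (hxy : x ≠ y) {b : B} (hb : ¬ (I x b ∧ I y b))
    (hz : z ∈ line I x y) (hw : w ∈ line I x y) (h1 : I z b) (h2 : I w b) : z = w := by
  by_contra hzw
  exact hb (sub_of_two h hxy hz hw hzw h1 h2)

open Classical in
/-- Two blocks with two common points that are joined by a good line meet in this line. -/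
theorem trace_eq (h : Des I n) {x y : P} (hg : Good I n x y) {b c : B} (hbc : b ≠ c) (h1 : I x b)
    (h2 : I y b) (h3 : I x c) (h4 : I y c) : pts I b ∩ pts I c = line I x y := by
  symm
  refine eq_of_subset_of_card_le (subset_inter (line_sub h1 h2) (line_sub h3 h4)) ?_
  rw [h.bb b c hbc, hg.2]

/-- There is a block through a good line and a further point. -/
theorem exists_blk (h : Des I n) {x y : P} (hg : Good I n x y) (z : P) :
    ∃ b, I x b ∧ I y b ∧ I z b := by
  classical
  by_cases hz : z ∈ line I x y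
  · have h1 : (thr I x ∩ thr I y).Nonempty := by
      rw [← card_pos, h.pp x y hg.1]
      omega
    obtain ⟨b, hb⟩ := h1
    rw [mem_inter, mem_thr, mem_thr] at hb
    exact ⟨b, hb.1, hb.2, mem_line.1 hz b hb.1 hb.2⟩
  · have hc : ∀ w, ((thr I x ∩ thr I y) ∩ pts (flip I) w).card ≤ 1 ∨
        ((thr I x ∩ thr I y) ∩ pts (flip I) w).card = n + 1 := by
      intro w
      by_cases h1 : ((thr I x ∩ thr I y) ∩ pts (flip I) w).card ≤ 1
      · exact Or.inl h1
      · right
        push Not at h1
        obtain ⟨b, hb, c, hc, hbc⟩ := one_lt_card.1 h1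
        rw [mem_inter, mem_inter, mem_thr, mem_thr, mem_pts] at hb hc
        have h2 := trace_eq h hg hbc hb.1.1 hb.1.2 hc.1.1 hc.1.2
        have h3 : w ∈ line I x y := by
          rw [← h2, mem_inter, mem_pts, mem_pts]
          exact ⟨hb.2, hc.2⟩
        rw [inter_eq_left.2, h.pp x y hg.1]
        intro d hd
        rw [mem_inter, mem_thr, mem_thr] at hd
        exact mem_pts.2 (mem_line.1 h3 d hd.1 hd.2)
    obtain ⟨b, hb⟩ := key h.dual (S := thr I x ∩ thr I y) (h.pp x y hg.1) hc z
    rw [mem_inter, mem_inter, mem_thr, mem_thr, mem_pts] at hb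
    exact ⟨b, hb.1.1, hb.1.2, hb.2⟩

/-- The block through a good line and a further point is unique. -/
theorem blk_unique (h : Des I n) {x y z : P} (hg : Good I n x y) (hz : z ∉ line I x y) {b c : B}
    (h1 : I x b) (h2 : I y b) (h3 : I z b) (h4 : I x c) (h5 : I y c) (h6 : I z c) : b = c := by
  classical
  by_contra hbc
  apply hz
  rw [← trace_eq h hg hbc h1 h2 h4 h5, mem_inter, mem_pts, mem_pts]
  exact ⟨h3, h6⟩

/-- Duality of good pairs. -/
theorem good_dual (h : Des I n) {b c : B} (hbc : b ≠ c) {x y : P} (hg : Good I n x y)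
    (h1 : I x b) (h2 : I y b) (h3 : I x c) (h4 : I y c) : Good (flip I) n b c := by
  classical
  refine ⟨hbc, ?_⟩
  have h5 := trace_eq h hg hbc h1 h2 h3 h4
  rw [← h.pp x y hg.1]
  congr 1
  ext d
  rw [mem_line, mem_inter, mem_thr, mem_thr]
  constructor
  · intro h6
    exact ⟨h6 x h1 h3, h6 y h2 h4⟩
  · rintro ⟨h6, h7⟩ z hz hz'
    have h8 : z ∈ line I x y := by
      rw [← h5, mem_inter, mem_pts, mem_pts]
      exact ⟨hz, hz'⟩
    exact mem_line.1 h8 d h6 h7

/-- Perfect blocks. -/
theorem perf_flip (h : Des I n) (hn : 1 ≤ n) (b : B) :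
    Perf (flip I) n b ↔ ∀ x y, I x b → I y b → x ≠ y → Good I n x y := by
  classical
  constructor
  · intro hb x y hx hy hxy
    have h1 : 1 < (thr I x ∩ thr I y).card := by
      rw [h.pp x y hxy]
      omega
    obtain ⟨c, hc, hcb⟩ := exists_mem_ne h1 b
    rw [mem_inter, mem_thr, mem_thr] at hc
    exact good_dual h.dual hxy (hb c hcb.symm) hx hc.1 hy hc.2
  · intro hb c hbc
    have h1 : 1 < (pts I b ∩ pts I c).card := by
      rw [h.bb b c hbc]
      omega
    obtain ⟨x, hx, y, hy, hxy⟩ := one_lt_card.1 h1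
    rw [mem_inter, mem_pts, mem_pts] at hx hy
    exact good_dual h hbc (hb x y hx.1 hy.1 hxy) hx.1 hy.1 hx.2 hy.2

end

end Pool.Agent.V7H30.DW
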