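import Pool.Agent.V7H30.DW.Lines
import Pool.Agent.V7H30.DW.Nuclei

/-!
# The traces of the blocks through a point on a block, and the perfect points
-/

set_option autoImplicit false

namespace Pool.Agent.V7H30.DW

open Finset Pool.Agent.N606.ST

noncomputable section

/-- the points of the block `e`, as a type -/
abbrev Pt {P B : Type} [Fintype P] (I : P → B → Prop) (e : B) : Type := {x : P // x ∈ pts I e}

open Classical in
/-- the trace of the block `b` on the block `e` -/
def tr {P B : Type} [Fintype P] (I : P → B → Prop) (e b : B) : Finset (Pt I e) :=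
  univ.filter fun x => I x.1 b

open Classical in
/-- the traces of the blocks through the point `p` on the block `e` -/
def ptr {P B : Type} [Fintype P] [Fintype B] (I : P → B → Prop) (p : P) (e : B) :
    Finset (Finset (Pt I e)) := (thr I p).image (tr I e)

/-- Every two points of `e` are in exactly one trace of a block through `p`. -/
def Regular {P B : Type} (I : P → B → Prop) (p : P) (e : B) : Prop :=
  ∀ u v, I u e → I v e → u ≠ v → ∃! b, I p b ∧ I u b ∧ I v b

open Classical in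
/-- the perfect points -/
def perfs {P B : Type} [Fintype P] (I : P → B → Prop) (n : ℕ) : Finset P :=
  univ.filter fun p => Perf I n p

variable {P B : Type} [Fintype P] [Fintype B] {I : P → B → Prop} {n : ℕ}

omit [Fintype B] in
@[simp] theorem mem_perfs {p : P} : p ∈ perfs I n ↔ Perf I n p := by simp [perfs]

omit [Fintype B] in
@[simp] theorem mem_tr {e b : B} {x : Pt I e} : x ∈ tr I e b ↔ I x.1 b := by simp [tr]

omit [Fintype B] in
open Classical in
theorem card_tr_inter (e b : B) : (tr I e b).card = (pts I e ∩ pts I b).card := by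
  refine card_bij (fun x _ => x.1) ?_ ?_ ?_
  · intro x hx
    rw [mem_tr] at hx
    exact mem_inter.2 ⟨x.2, mem_pts.2 hx⟩
  · intro x _ y _ hxy
    exact Subtype.ext hxy
  · intro x hx
    rw [mem_inter] at hx
    exact ⟨⟨x, hx.1⟩, mem_tr.2 (mem_pts.1 hx.2), rfl⟩

theorem card_tr (h : Des I n) {e b : B} (heb : e ≠ b) : (tr I e b).card = n + 1 := by
  classical
  rw [card_tr_inter, h.bb e b heb]

omit [Fintype P] [Fintype B] in
theorem ne_of_not {p : P} {e b : B} (hpe : ¬ I p e) (hpb : I p b) : e ≠ b := by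
  rintro rfl
  exact hpe hpb

open Classical in
theorem plane_ptr (h : Des I n) {p : P} {e : B} (hpe : ¬ I p e) (hr : Regular I p e) :
    Plane n (ptr I p e) := by
  refine ⟨?_, ?_, ?_⟩
  · rw [Fintype.card_coe, h.bl]
  · intro b hb
    rw [ptr, mem_image] at hb
    obtain ⟨c, hc, rfl⟩ := hb
    exact card_tr h (ne_of_not hpe (mem_thr.1 hc))
  · intro x y hxy
    obtain ⟨b, ⟨h1, h2, h3⟩, h4⟩ := hr x.1 y.1 (mem_pts.1 x.2) (mem_pts.1 y.2)
      (fun e => hxy (Subtype.ext e))
    refine ⟨tr I e b, ⟨mem_image.2 ⟨b, mem_thr.2 h1, rfl⟩, mem_tr.2 h2, mem_tr.2 h3⟩, ?_⟩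
    rintro c ⟨h5, h6, h7⟩
    rw [ptr, mem_image] at h5
    obtain ⟨d, hd, rfl⟩ := h5
    rw [h4 d ⟨mem_thr.1 hd, mem_tr.1 h6, mem_tr.1 h7⟩]

theorem regular_of_perf (h : Des I n) {p : P} {e : B} (hpe : ¬ I p e) (hp : Perf I n p) :
    Regular I p e := by
  intro u v hu hv huv
  have hg : Good I n p u := hp u (by
    rintro rfl
    exact hpe hu)
  have hv' : v ∉ line I p u := by
    intro hv'
    exact hpe (sub_of_two h hg.1 (right_mem p u) hv' huv hu hv).1
  obtain ⟨b, h1, h2, h3⟩ := exists_blk h hg v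
  refine ⟨b, ⟨h1, h2, h3⟩, ?_⟩
  rintro c ⟨h4, h5, h6⟩
  exact (blk_unique h hg hv' h1 h2 h3 h4 h5 h6).symm

/-- Not all blocks through a bad pair have the same trace. -/
theorem exists_other (h : Des I n) {e g : B} {u w : P} (hu : I u e) (hw : I w e) (huw : u ≠ w)
    (hbad : ¬ Good I n u w) (heg : e ≠ g) (hug : I u g) (hwg : I w g) :
    ∃ f, e ≠ f ∧ I u f ∧ I w f ∧ tr I e f ≠ tr I e g := by
  classical
  by_contra hcon
  push Not at hcon
  apply hbad
  refine ⟨huw, ?_⟩
  rw [← h.bb e g heg]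
  congr 1
  refine Subset.antisymm (subset_inter (line_sub hu hw) (line_sub hug hwg)) ?_
  intro x hx
  rw [mem_inter, mem_pts, mem_pts] at hx
  rw [mem_line]
  intro b hub hwb
  by_cases heb : e = b
  · exact heb ▸ hx.1
  · have h1 := hcon b heb hub hwb
    have h2 : (⟨x, mem_pts.2 hx.1⟩ : Pt I e) ∈ tr I e b := by
      rw [h1, mem_tr]
      exact hx.2
    exact mem_tr.1 h2

open Classical in
/-- The perfect points of a block which is not perfect. -/
theorem perf_in_block (h : Des I n) (hn : 2 ≤ n) {p : P} {e : B} (hpe : ¬ I p e)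
    (hp : Perf I n p) {u w : P} (hu : I u e) (hw : I w e) (huw : u ≠ w)
    (hbad : ¬ Good I n u w) : (perfs I n ∩ pts I e).card ^ 2 ≤ 4 * n * (n + 1) ^ 2 := by
  have hr := regular_of_perf h hpe hp
  obtain ⟨g, ⟨hpg, hug, hwg⟩, hguniq⟩ := hr u w hu hw huw
  have heg : e ≠ g := ne_of_not hpe hpg
  obtain ⟨f, hef, huf, hwf, hfg⟩ := exists_other h hu hw huw hbad heg hug hwg
  let Z : Finset (Pt I e) := univ.filter fun x => Perf I n x.1
  have hZ : (perfs I n ∩ pts I e).card = Z.card := by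
    symm
    refine card_bij (fun x _ => x.1) ?_ ?_ ?_
    · intro x hx
      exact mem_inter.2 ⟨mem_perfs.2 (mem_filter.1 hx).2, x.2⟩
    · intro x _ y _ hxy
      exact Subtype.ext hxy
    · intro x hx
      rw [mem_inter] at hx
      exact ⟨⟨x, hx.2⟩, mem_filter.2 ⟨mem_univ _, mem_perfs.1 hx.1⟩, rfl⟩
  rw [hZ]
  refine nuclei (plane_ptr h hpe hr) hn (T := tr I e f) (card_tr h hef) ?_ ?_
  · intro hT
    rw [ptr, mem_image] at hT
    obtain ⟨g', hg', hgf⟩ := hT
    have h1 : (⟨u, mem_pts.2 hu⟩ : Pt I e) ∈ tr I e g' := by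
      rw [hgf]
      exact mem_tr.2 huf
    have h2 : (⟨w, mem_pts.2 hw⟩ : Pt I e) ∈ tr I e g' := by
      rw [hgf]
      exact mem_tr.2 hwf
    have h3 := hguniq g' ⟨mem_thr.1 hg', mem_tr.1 h1, mem_tr.1 h2⟩
    rw [h3] at hgf
    exact hfg hgf.symm
  · intro z hz
    have hzP : Perf I n z.1 := (mem_filter.1 hz).2
    have hze : I z.1 e := mem_pts.1 z.2
    have hzf : ¬ I z.1 f := by
      intro hzf
      have hzu : z.1 ≠ u := by
        intro hzu
        apply hbad
        rw [← hzu]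
        exact hzP w (by rw [hzu]; exact huw)
      have hg := hzP u hzu
      have h1 := trace_eq h hg hef hze hu hzf huf
      have h2 : w ∈ line I z.1 u := by
        rw [← h1, mem_inter, mem_pts, mem_pts]
        exact ⟨hw, hwf⟩
      exact hbad (hg.of_mem h (right_mem _ _) h2 huw)
    refine ⟨fun hzT => hzf (mem_tr.1 hzT), ?_⟩
    intro b hb hzb
    rw [ptr, mem_image] at hb
    obtain ⟨g', hg', rfl⟩ := hb
    have heg' : e ≠ g' := ne_of_not hpe (mem_thr.1 hg')
    by_contra hlt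
    push Not at hlt
    obtain ⟨x, hx, y, hy, hxy⟩ := one_lt_card.1 hlt
    rw [mem_inter, mem_tr, mem_tr] at hx hy
    have hxe := mem_pts.1 x.2
    have hye := mem_pts.1 y.2
    have hxy' : x.1 ≠ y.1 := fun e => hxy (Subtype.ext e)
    have hzx : z.1 ≠ x.1 := by
      intro hzx
      exact hzf (hzx ▸ hx.2)
    have hg := hzP x.1 hzx
    have h1 := trace_eq h hg heg' hze hxe (mem_tr.1 hzb) hx.1
    have h2 : y.1 ∈ line I z.1 x.1 := by
      rw [← h1, mem_inter, mem_pts, mem_pts]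
      exact ⟨hye, hy.1⟩
    have hg2 := hg.of_mem h (right_mem _ _) h2 hxy'
    have h3 := trace_eq h hg2 hef hxe hye hx.2 hy.2
    have h4 : u ∈ line I x.1 y.1 := by
      rw [← h3, mem_inter, mem_pts, mem_pts]
      exact ⟨hu, huf⟩
    have h5 : w ∈ line I x.1 y.1 := by
      rw [← h3, mem_inter, mem_pts, mem_pts]
      exact ⟨hw, hwf⟩
    exact hbad (hg2.of_mem h h4 h5 huw)

/-- **The number of perfect points** of a design with a bad pair. -/
theorem card_perfs_sq (h : Des I n) (hn : 2 ≤ n) {u w : P} (huw : u ≠ w)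
    (hbad : ¬ Good I n u w) : (perfs I n).card ^ 2 ≤ 4 * n * (n + 1) ^ 4 := by
  classical
  have hpu : ∀ p ∈ perfs I n, p ≠ u := by
    rintro p hp rfl
    exact hbad (mem_perfs.1 hp w huw)
  by_cases hsub : ∃ e, I u e ∧ I w e ∧ perfs I n ⊆ pts I e
  · obtain ⟨e, _, _, hs⟩ := hsub
    have h1 := card_le_card hs
    rw [h.bl] at h1
    have h2 : (perfs I n).card ≤ (n + 1) ^ 2 := by nlinarith
    calc (perfs I n).card ^ 2 ≤ ((n + 1) ^ 2) ^ 2 := Nat.pow_le_pow_left h2 2
      _ = 1 * (n + 1) ^ 4 := by ring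
      _ ≤ _ := Nat.mul_le_mul_right _ (by omega)
  · push Not at hsub
    have h1 : ∀ e ∈ thr I u ∩ thr I w, (perfs I n ∩ pts I e).card ^ 2 ≤ 4 * n * (n + 1) ^ 2 := by
      intro e he
      rw [mem_inter, mem_thr, mem_thr] at he
      obtain ⟨p, hp, hpe⟩ := not_subset.1 (hsub e he.1 he.2)
      exact perf_in_block h hn (fun hc => hpe (mem_pts.2 hc)) (mem_perfs.1 hp) he.1 he.2 huw hbad
    have h2 : perfs I n ⊆ (thr I u ∩ thr I w).biUnion fun e => perfs I n ∩ pts I e := by
      intro p hp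
      obtain ⟨b, h3, h4, h5⟩ := exists_blk h (mem_perfs.1 hp u (hpu p hp)) w
      exact mem_biUnion.2 ⟨b, mem_inter.2 ⟨mem_thr.2 h4, mem_thr.2 h5⟩,
        mem_inter.2 ⟨hp, mem_pts.2 h3⟩⟩
    have h3 := (card_le_card h2).trans card_biUnion_le
    have h4 : (∑ e ∈ thr I u ∩ thr I w, (perfs I n ∩ pts I e).card) ^ 2 ≤
        (thr I u ∩ thr I w).card * ∑ e ∈ thr I u ∩ thr I w, (perfs I n ∩ pts I e).card ^ 2 :=
      sq_sum_le_card_mul_sum_sq
    have h5 := sum_le_sum h1
    rw [sum_const, smul_eq_mul] at h5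
    rw [h.pp u w huw] at h4 h5
    calc (perfs I n).card ^ 2 ≤ _ := Nat.pow_le_pow_left h3 2
      _ ≤ _ := h4
      _ ≤ (n + 1) * ((n + 1) * (4 * n * (n + 1) ^ 2)) := Nat.mul_le_mul_left _ h5
      _ = _ := by ring

end

end Pool.Agent.V7H30.DW
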